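import Pool.Agent.H91.Cliff

set_option autoImplicit false

open H91.Cliff in
theorem Pool.Agent.Results.MP_782c7c_an.TwoCircles.result :
    ∃ (A : Fin 3 → Matrix (Fin 4 ⊕ Fin 4) (Fin 4 ⊕ Fin 4) ℂ)
    (g : Fin 3 → Matrix (Fin 2) (Fin 2) ℂ), (∀ j, (A j).IsHermitian) ∧ IsClifford g ∧
    IsOneManifold (spec g A) :=
  main
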